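import Mathlib
import Pool.Agent.H15.Codeg

set_option autoImplicit false

namespace Pool.Agent.Results.MP_af2786_co.TendsToOne
open Finset Filter Topology

/-- Codegree of `T`: the number of vertices `v ∉ T` with `T ∪ {v}` an edge. -/
def codeg {n : ℕ} (E : Finset (Finset (Fin n))) (T : Finset (Fin n)) : ℕ :=
  (univ.filter (fun v => v ∉ T ∧ insert v T ∈ E)).card

/-- Minimum codegree over all `(k-1)`-sets of vertices. -/
noncomputable def minCodeg {n : ℕ} (k : ℕ) (E : Finset (Finset (Fin n))) : ℕ :=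
  sInf {d : ℕ | ∃ T : Finset (Fin n), T.card = k - 1 ∧ codeg E T = d}

/-- No `k+1` vertices all of whose `k`-subsets are edges. -/
def CliqueFree {n : ℕ} (k : ℕ) (E : Finset (Finset (Fin n))) : Prop :=
  ¬ ∃ T : Finset (Fin n), T.card = k + 1 ∧ ∀ e ⊆ T, e.card = k → e ∈ E

/-- `ex_{k-1}(n, K_{k+1}^k)`. -/
noncomputable def exCo (k n : ℕ) : ℕ :=
  sSup {d : ℕ | ∃ E : Finset (Finset (Fin n)),
    (∀ e ∈ E, e.card = k) ∧ CliqueFree k E ∧ minCodeg k E = d}

/-- The codegree Turán density `π_{k-1}(K_{k+1}^k)`. -/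
noncomputable def codegDensity (k : ℕ) : ℝ :=
  limsup (fun n : ℕ => (exCo k n : ℝ) / n) atTop

theorem minCodeg_le {n : ℕ} (k : ℕ) (E : Finset (Finset (Fin n))) : minCodeg k E ≤ n := by
  unfold minCodeg
  rcases Set.eq_empty_or_nonempty {d : ℕ | ∃ T : Finset (Fin n), T.card = k - 1 ∧ codeg E T = d}
    with h | h
  · rw [h]; simp
  · obtain ⟨T, -, h2⟩ := Nat.sInf_mem h
    rw [← h2]
    simpa [codeg] using card_le_univ (univ.filter (fun v => v ∉ T ∧ insert v T ∈ E))

theorem ratio_le (k n : ℕ) : (exCo k n : ℝ) / n ≤ 1 := by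
  have : exCo k n ≤ n := csSup_le' (by rintro d ⟨E, -, -, rfl⟩; exact minCodeg_le k E)
  exact div_le_one_of_le₀ (by exact_mod_cast this) (by positivity)

theorem result : Tendsto codegDensity atTop (𝓝 1) := by
  have hup : ∀ k, codegDensity k ≤ 1 := fun k =>
    limsup_le_of_le (isCoboundedUnder_le_of_le atTop (x := 0) (fun n => by positivity))
      (Eventually.of_forall (ratio_le k))
  rw [Metric.tendsto_atTop]
  intro ε hε
  obtain ⟨k0, hk0⟩ := Pool.Agent.H15.Codeg.frequently_construct (ε / 2) (by positivity)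
  refine ⟨k0, fun k hk => ?_⟩
  have hlow : 1 - ε / 2 ≤ codegDensity k := by
    apply le_limsup_of_frequently_le _
      (isBoundedUnder_of ⟨1, fun n => ratio_le k n⟩)
    rw [frequently_atTop]
    intro n0
    obtain ⟨n, h0, hkn, h1, E, hE, hfree, hco⟩ := hk0 k hk n0
    refine ⟨n, h0, ?_⟩
    have hn : (0 : ℝ) < n := by exact_mod_cast h1
    rw [le_div_iff₀ hn]
    have hne : {d : ℕ | ∃ T : Finset (Fin n), T.card = k - 1 ∧ codeg E T = d}.Nonempty := by
      obtain ⟨T, -, hT⟩ := exists_subset_card_eq (s := (univ : Finset (Fin n))) (n := k - 1)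
        (by simp; omega)
      exact ⟨_, T, hT, rfl⟩
    obtain ⟨T, hT, h2⟩ := Nat.sInf_mem hne
    have h3 : minCodeg k E ≤ exCo k n :=
      le_csSup ⟨n, by rintro d ⟨E, -, -, rfl⟩; exact minCodeg_le k E⟩ ⟨E, hE, hfree, rfl⟩
    have h4 : (codeg E T : ℝ) ≤ exCo k n := by
      rw [h2]; exact_mod_cast h3
    exact (hco T hT).trans h4
  rw [Real.dist_eq, abs_lt]
  have := hup k
  constructor <;> linarith

end Pool.Agent.Results.MP_af2786_co.TendsToOne
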